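import Mathlib
import Pool.Agent.MP_d5d631_co.Main

/-!
The growth rate of `P(n, n/2 + 1)` along even `n = 2 m` exists and is at least `√3`.
-/

namespace Pool.Agent.Results.MP_d5d631_co.SqrtThree

open Filter Topology Pool.Agent.MP_d5d631_co

theorem result : ∃ L : ℝ, Real.sqrt 3 ≤ L ∧
    Tendsto (fun m : ℕ => (P (2 * m) (m + 1) : ℝ) ^ (1 / (2 * (m : ℝ)))) atTop (𝓝 L) :=
  main

end Pool.Agent.Results.MP_d5d631_co.SqrtThree
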